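import Pool.Agent.V11186.KO.Mat
import Pool.Agent.TH264.Bridge.PW

set_option autoImplicit false

/-! A connected group acts on a compact normal subgroup by inner automorphisms (Iwasawa). -/

namespace Pool.Agent.V11186.KO

open Filter Topology Matrix MeasureTheory
open scoped Matrix.Norms.L2Operator

section Unitary

variable {N : Type*} [Group N] {ι : Type} [Fintype ι] [DecidableEq ι]

theorem star_rep_inv (ρ : N →* Matrix ι ι ℂ) (hun : ∀ x, star (ρ x) * ρ x = 1) (a : N) :
    star (ρ a) = ρ a⁻¹ := by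
  have h1 : ρ a * ρ a⁻¹ = 1 := by rw [← map_mul, mul_inv_cancel, map_one]
  calc star (ρ a) = star (ρ a) * (ρ a * ρ a⁻¹) := by rw [h1, mul_one]
    _ = ρ a⁻¹ := by rw [← mul_assoc, hun, one_mul]

end Unitary

variable {G : Type*} [Group G] [TopologicalSpace G] [IsTopologicalGroup G]

theorem cg_coe (N : Subgroup G) [N.Normal] (g : G) (y : N) :
    ((MulAut.conjNormal g⁻¹ y : N) : G) = g⁻¹ * y * g := by
  rw [MulAut.conjNormal_apply, inv_inv]

theorem inner_near (N : Subgroup G) [N.Normal] (hNc : IsCompact (N : Set G)) {ι : Type}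
    [Fintype ι] [DecidableEq ι] (ρ : N →* Matrix ι ι ℂ) (hρ : Continuous ρ)
    (hun : ∀ x, star (ρ x) * ρ x = 1) :
    ∀ᶠ g in 𝓝 (1 : G), ∃ m : N, ∀ y : N,
      ρ (MulAut.conjNormal g⁻¹ y) = ρ (m⁻¹ * y * m) := by
  haveI : CompactSpace N := isCompact_iff_compactSpace.1 hNc
  letI : MeasurableSpace N := borel N
  haveI : BorelSpace N := ⟨rfl⟩
  have hcont : Continuous (fun p : G × N => ρ p.2 * star (ρ (MulAut.conjNormal p.1⁻¹ p.2))) := by
    have h1 : Continuous (fun p : G × N => (MulAut.conjNormal p.1⁻¹ p.2 : N)) := by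
      refine Continuous.subtype_mk (f := fun p : G × N => p.1⁻¹ * (p.2 : G) * p.1⁻¹⁻¹) ?_ _
      fun_prop
    exact (hρ.comp continuous_snd).mul (hρ.comp h1).star
  let K0 : TopologicalSpace.PositiveCompacts N := ⊤
  let μ : Measure N := Measure.haarMeasure K0
  haveI : IsProbabilityMeasure μ := by
    refine ⟨?_⟩
    have := Measure.haarMeasure_self (K₀ := (⊤ : TopologicalSpace.PositiveCompacts N))
    rw [TopologicalSpace.PositiveCompacts.coe_top] at this
    exact this
  haveI : μ.IsHaarMeasure := inferInstance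
  -- the intertwiner
  obtain ⟨Fn, hFn⟩ : ∃ Fn : G → N → Matrix ι ι ℂ,
    Fn = fun g x => ρ x * star (ρ (MulAut.conjNormal g⁻¹ x)) := ⟨_, rfl⟩
  have hFc : ∀ g, Continuous (Fn g) := fun g => by
    rw [hFn]; exact hcont.comp (Continuous.prodMk_right g)
  have hint : ∀ f : N → Matrix ι ι ℂ, Continuous f → Integrable f μ := fun f hf =>
    hf.integrable_of_hasCompactSupport (HasCompactSupport.of_compactSpace _)
  obtain ⟨T, hTd⟩ : ∃ T : G → Matrix ι ι ℂ, T = fun g => ∫ x, Fn g x ∂μ := ⟨_, rfl⟩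
  have hinter : ∀ g, ∀ y : N, ρ y * T g = T g * ρ (MulAut.conjNormal g⁻¹ y) := by
    intro g y
    have e1 : ρ y * T g = ∫ x, ρ y * Fn g x ∂μ := by
      rw [hTd]
      exact ((ContinuousLinearMap.mul ℝ (Matrix ι ι ℂ) (ρ y)).integral_comp_comm
        (hint _ (hFc g))).symm
    have e2 : T g * ρ (MulAut.conjNormal g⁻¹ y) =
        ∫ x, Fn g x * ρ (MulAut.conjNormal g⁻¹ y) ∂μ := by
      rw [hTd]
      exact (((ContinuousLinearMap.mul ℝ (Matrix ι ι ℂ)).flip
        (ρ (MulAut.conjNormal g⁻¹ y))).integral_comp_comm (hint _ (hFc g))).symm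
    rw [e1, e2, ← integral_mul_left_eq_self (fun x => Fn g x * ρ (MulAut.conjNormal g⁻¹ y)) y]
    refine integral_congr_ae (Eventually.of_forall fun x => ?_)
    rw [hFn]; simp only
    rw [map_mul (MulAut.conjNormal g⁻¹), map_mul, map_mul, star_mul, mul_assoc (ρ y * ρ x),
      mul_assoc (star (ρ (MulAut.conjNormal g⁻¹ x))), hun, mul_one, mul_assoc]
  have hT1 : Tendsto T (𝓝 1) (𝓝 1) := by
    rw [Metric.tendsto_nhds]
    intro ε hε
    let Φ : C(G, C(N, Matrix ι ι ℂ)) := ContinuousMap.curry ⟨_, hcont⟩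
    have h1 : Tendsto Φ (𝓝 1) (𝓝 (Φ 1)) := Φ.continuous.tendsto 1
    rw [Metric.tendsto_nhds] at h1
    filter_upwards [h1 (ε / 2) (by positivity)] with g hg
    have h2 : ∀ x, ‖Fn g x - 1‖ ≤ ε / 2 := by
      intro x
      have h3 := (ContinuousMap.dist_apply_le_dist (f := Φ g) (g := Φ 1) x).trans hg.le
      rw [dist_eq_norm] at h3
      have e1 : Φ g x = Fn g x := by rw [hFn]; rfl
      have e2 : Φ 1 x = 1 := by
        change ρ x * star (ρ (MulAut.conjNormal (1 : G)⁻¹ x)) = 1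
        rw [inv_one, map_one, MulAut.one_apply, star_rep_inv ρ hun, ← map_mul, mul_inv_cancel,
          map_one]
      rwa [e1, e2] at h3
    have h4 : T g - 1 = ∫ x, (Fn g x - 1) ∂μ := by
      rw [integral_sub (hint _ (hFc g)) (hint _ continuous_const), hTd]
      simp
    rw [dist_eq_norm, h4]
    have h5 := norm_integral_le_of_norm_le_const (μ := μ) (Eventually.of_forall h2)
    rw [probReal_univ, mul_one] at h5
    linarith
  -- apply the linear lemma
  have hLc : IsCompact ((MonoidHom.mrange ρ : Submonoid (Matrix ι ι ℂ)) : Set (Matrix ι ι ℂ)) := by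
    rw [MonoidHom.coe_mrange]; exact isCompact_range hρ
  have hnear := near_one (MonoidHom.mrange ρ) hLc
    (by rintro _ ⟨x, rfl⟩; exact ⟨x⁻¹, (star_rep_inv ρ hun x).symm⟩)
    (by rintro _ ⟨x, rfl⟩; exact hun x)
  have hunit : ∀ᶠ S in 𝓝 (1 : Matrix ι ι ℂ), IsUnit S :=
    Units.isOpen.mem_nhds (by exact isUnit_one)
  filter_upwards [hT1.eventually hnear, hT1.eventually hunit] with g hg hgu
  obtain ⟨w, hw⟩ := hgu
  have hT' : T g * ((w⁻¹ : (Matrix ι ι ℂ)ˣ) : Matrix ι ι ℂ) = 1 := by rw [← hw]; exact w.mul_inv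
  have hT'' : ((w⁻¹ : (Matrix ι ι ℂ)ˣ) : Matrix ι ι ℂ) * T g = 1 := by rw [← hw]; exact w.inv_mul
  obtain ⟨n, ⟨m, rfl⟩, hm⟩ := hg _ hT' hT'' (by
    rintro _ ⟨z, rfl⟩
    refine ⟨MulAut.conjNormal g z, ?_⟩
    have h1 := hinter g (MulAut.conjNormal g z)
    have h2 : MulAut.conjNormal g⁻¹ (MulAut.conjNormal g z) = z := by
      rw [← MulAut.mul_apply, ← map_mul, inv_mul_cancel, map_one, MulAut.one_apply]
    rw [h2] at h1
    rw [← h1, mul_assoc, hT', mul_one])
  refine ⟨m, fun y => ?_⟩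
  have h1 := hm (ρ (m⁻¹ * y * m)) ⟨_, rfl⟩
  have h2 := hinter g y
  have h3 : ρ m * star (ρ m) = 1 := by
    rw [star_rep_inv ρ hun, ← map_mul, mul_inv_cancel, map_one]
  have h4 : T g * ρ (m⁻¹ * y * m) = ρ y * T g := by
    calc T g * ρ (m⁻¹ * y * m) = (ρ m * star (ρ m)) * T g * ρ (m⁻¹ * y * m) := by
          rw [h3, one_mul]
      _ = ρ m * (star (ρ m) * T g * ρ (m⁻¹ * y * m)) := by noncomm_ring
      _ = ρ m * (ρ (m⁻¹ * y * m) * (star (ρ m) * T g)) := by rw [h1]
      _ = (ρ m * ρ (m⁻¹ * y * m) * star (ρ m)) * T g := by noncomm_ring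
      _ = ρ y * T g := by
        congr 1
        rw [star_rep_inv ρ hun, ← map_mul, ← map_mul]
        congr 1; group
  rw [h2] at h4
  calc ρ (MulAut.conjNormal g⁻¹ y)
      = ((w⁻¹ : (Matrix ι ι ℂ)ˣ) : Matrix ι ι ℂ) * (T g * ρ (MulAut.conjNormal g⁻¹ y)) := by
        rw [← mul_assoc, hT'', one_mul]
    _ = ρ (m⁻¹ * y * m) := by rw [← h4, ← mul_assoc, hT'', one_mul]

theorem inner_all [ConnectedSpace G] (N : Subgroup G) [N.Normal] (hNc : IsCompact (N : Set G))
    {ι : Type} [Fintype ι] [DecidableEq ι] (ρ : N →* Matrix ι ι ℂ) (hρ : Continuous ρ)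
    (hun : ∀ x, star (ρ x) * ρ x = 1) (g : G) :
    ∃ m : N, ∀ y : N, ρ (MulAut.conjNormal g⁻¹ y) = ρ (m⁻¹ * y * m) := by
  let H : Subgroup G :=
    { carrier := {g | ∃ m : N, ∀ y : N, ρ (MulAut.conjNormal g⁻¹ y) = ρ (m⁻¹ * y * m)}
      one_mem' := ⟨1, fun y => by simp⟩
      mul_mem' := by
        rintro a b ⟨m, hm⟩ ⟨k, hk⟩
        refine ⟨m * k, fun y => ?_⟩
        have e : MulAut.conjNormal (a * b)⁻¹ y =
            (MulAut.conjNormal b⁻¹ (MulAut.conjNormal a⁻¹ y) : N) := by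
          rw [← MulAut.mul_apply, ← map_mul, _root_.mul_inv_rev]
        rw [e, hk, map_mul, map_mul, hm, ← map_mul, ← map_mul]
        congr 1; group
      inv_mem' := by
        rintro a ⟨m, hm⟩
        refine ⟨m⁻¹, fun y => ?_⟩
        have h1 := hm (MulAut.conjNormal a y)
        have e : MulAut.conjNormal a⁻¹ (MulAut.conjNormal a y) = y := by
          rw [← MulAut.mul_apply, ← map_mul, inv_mul_cancel, map_one, MulAut.one_apply]
        rw [e] at h1
        rw [inv_inv, inv_inv, map_mul, map_mul, h1, ← map_mul, ← map_mul]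
        congr 1; group }
  have hopen : IsOpen (H : Set G) := Subgroup.isOpen_of_mem_nhds (g := 1) H
    (inner_near N hNc ρ hρ hun)
  have hclosed : IsClosed (H : Set G) := Subgroup.isClosed_of_isOpen H hopen
  have huniv : (H : Set G) = Set.univ := IsClopen.eq_univ ⟨hclosed, hopen⟩ ⟨1, H.one_mem⟩
  have : g ∈ (H : Set G) := by rw [huniv]; trivial
  exact this

/-- A continuous unitary matrix representation. -/
structure URep (N : Type*) [Group N] [TopologicalSpace N] where
  ι : Type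
  fin : Fintype ι
  dec : DecidableEq ι
  ρ : N →* Matrix ι ι ℂ
  cont : Continuous ρ
  unit : ∀ x, star (ρ x) * ρ x = 1

theorem exists_inner [T2Space G] [ConnectedSpace G] (N : Subgroup G) [N.Normal]
    (hNc : IsCompact (N : Set G)) (g : G) :
    ∃ m : N, ∀ y : N, MulAut.conjNormal g⁻¹ y = m⁻¹ * y * m := by
  haveI : CompactSpace N := isCompact_iff_compactSpace.1 hNc
  let S : URep N → Set N := fun J => {m | ∀ y : N, J.ρ (MulAut.conjNormal g⁻¹ y) =
    J.ρ (m⁻¹ * y * m)}
  haveI : Nonempty (URep N) := ⟨⟨PUnit, inferInstance, inferInstance, 1, continuous_const,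
    fun x => by simp⟩⟩
  have hclosed : ∀ J, IsClosed (S J) := by
    intro J
    have : S J = ⋂ y : N, {m | J.ρ (MulAut.conjNormal g⁻¹ y) = J.ρ (m⁻¹ * y * m)} := by
      ext m; simp [S]
    rw [this]
    have hc := J.cont
    exact isClosed_iInter fun y => isClosed_eq continuous_const
      (hc.comp (by fun_prop))
  have hne : (⋂ J, S J).Nonempty := by
    refine IsCompact.nonempty_iInter_of_directed_nonempty_isCompact_isClosed S ?_ ?_
      (fun J => (hclosed J).isCompact) hclosed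
    · intro J1 J2
      letI := J1.fin; letI := J1.dec; letI := J2.fin; letI := J2.dec
      let σ : N →* Matrix (J1.ι ⊕ J2.ι) (J1.ι ⊕ J2.ι) ℂ :=
        { toFun := fun x => Matrix.fromBlocks (J1.ρ x) 0 0 (J2.ρ x)
          map_one' := by rw [map_one, map_one, Matrix.fromBlocks_one]
          map_mul' := fun x y => by
            rw [Matrix.fromBlocks_multiply, map_mul, map_mul]; simp }
      have hσ : ∀ x, σ x = Matrix.fromBlocks (J1.ρ x) 0 0 (J2.ρ x) := fun _ => rfl
      have hσc : Continuous σ :=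
        Continuous.matrix_fromBlocks J1.cont continuous_const continuous_const J2.cont
      have hσu : ∀ x, star (σ x) * σ x = 1 := by
        intro x
        have h1 := J1.unit x
        have h2 := J2.unit x
        rw [Matrix.star_eq_conjTranspose] at h1 h2
        rw [hσ, Matrix.star_eq_conjTranspose, Matrix.fromBlocks_conjTranspose,
          Matrix.fromBlocks_multiply, h1, h2]
        simp
      refine ⟨⟨J1.ι ⊕ J2.ι, inferInstance, inferInstance, σ, hσc, hσu⟩, ?_, ?_⟩
      · intro m hm y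
        have h1 := hm y
        change σ _ = σ _ at h1
        rw [hσ, hσ, Matrix.fromBlocks_inj] at h1
        exact h1.1
      · intro m hm y
        have h1 := hm y
        change σ _ = σ _ at h1
        rw [hσ, hσ, Matrix.fromBlocks_inj] at h1
        exact h1.2.2.2
    · intro J
      letI := J.fin; letI := J.dec
      exact inner_all N hNc J.ρ J.cont J.unit g
  obtain ⟨m, hm⟩ := hne
  rw [Set.mem_iInter] at hm
  refine ⟨m, fun y => ?_⟩
  by_contra hne
  have hb : (MulAut.conjNormal g⁻¹ y : N) * (m⁻¹ * y * m)⁻¹ ≠ 1 := fun h =>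
    hne (mul_inv_eq_one.1 h)
  obtain ⟨N0, ρ0, hρ0, hρk0⟩ := Pool.Agent.TH264.Bridge.PWaux1.exists_rep_ne_one N _ hb
  obtain ⟨ι, hfin, hdec, ρ, hρ, hρk⟩ := Pool.Agent.TH264.Bridge.PWaux2.PW_unit N _ N0 ρ0 hρ0 hρk0
  let τ : N →* Matrix ι ι ℂ := (Submonoid.subtype _).comp ρ
  have hτ : Continuous τ := continuous_subtype_val.comp hρ
  have hτu : ∀ x, star (τ x) * τ x = 1 := fun x => Matrix.mem_unitaryGroup_iff'.1 (ρ x).2
  have h1 := hm ⟨ι, hfin, hdec, τ, hτ, hτu⟩ y
  change τ _ = τ _ at h1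
  have h2 : ρ (MulAut.conjNormal g⁻¹ y) = ρ (m⁻¹ * y * m) := Subtype.ext h1
  apply hρk
  rw [map_mul, h2, ← map_mul, mul_inv_cancel, map_one]

/-- Iwasawa: in a connected group, a compact normal subgroup and its centralizer generate. -/
theorem exists_centralizer [T2Space G] [ConnectedSpace G] (N : Subgroup G) [N.Normal]
    (hNc : IsCompact (N : Set G)) (g : G) :
    ∃ c ∈ Subgroup.centralizer (N : Set G), ∃ m ∈ N, g = c * m := by
  obtain ⟨m, hm⟩ := exists_inner N hNc g
  refine ⟨g * (m : G)⁻¹, ?_, m, m.2, by group⟩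
  rw [Subgroup.mem_centralizer_iff]
  intro y hy
  have h1 := congrArg (fun z : N => (z : G)) (hm ⟨y, hy⟩)
  simp only [cg_coe, Subgroup.coe_mul, Subgroup.coe_inv] at h1
  have h2 : y * g = g * ((m : G)⁻¹ * y * m) := by rw [← h1]; group
  calc y * (g * (m : G)⁻¹) = (y * g) * (m : G)⁻¹ := by group
    _ = g * (m : G)⁻¹ * y := by rw [h2]; group

end Pool.Agent.V11186.KO
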