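import Mathlib

set_option autoImplicit false

/-! A compact group `L` of unitary elements of a finite dimensional star algebra is, up to its
commutant, open in its normaliser. -/

namespace Pool.Agent.V11186.KO

open Filter Topology NormedSpace

section Pow

variable {A : Type*} [NormedRing A] [NormedAlgebra ℝ A] [CompleteSpace A]

/-- If `a k → 1` and `m k • (a k - 1) → W` then `a k ^ m k → exp W`. -/
theorem pow_tendsto_exp {l : Filter ℕ} (a : ℕ → A) (m : ℕ → ℕ) (W : A)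
    (ha : Tendsto a l (𝓝 1)) (hW : Tendsto (fun k => (m k : ℝ) • (a k - 1)) l (𝓝 W)) :
    Tendsto (fun k => a k ^ m k) l (𝓝 (exp W)) := by
  letI : NormedAlgebra ℚ A := NormedAlgebra.restrictScalars ℚ ℝ A
  have h0 : HasStrictFDerivAt (exp : A → A)
      ((ContinuousLinearEquiv.refl ℝ A : A ≃L[ℝ] A) : A →L[ℝ] A) 0 :=
    hasStrictFDerivAt_exp_zero (𝕂 := ℝ) (𝔸 := A)
  have hg1 := h0.localInverse_apply_image
  have hg := h0.to_localInverse.hasFDerivAt.hasFDerivWithinAt (s := Set.univ)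
  have hexp := h0.eventually_right_inverse
  rw [exp_zero] at hg1 hg hexp
  generalize h0.localInverse = g at hg1 hg hexp
  have hd : Tendsto (fun k => a k - 1) l (𝓝 0) := by simpa using ha.sub_const 1
  have h1 := hg.lim (c := fun k => (m k : ℝ)) (d := fun k => a k - 1) hd (by simp) hW
  have h2 : ∀ᶠ k in l, exp ((m k : ℝ) • (g (1 + (a k - 1)) - g 1)) = a k ^ m k := by
    filter_upwards [ha.eventually hexp] with k hk
    have e1 : (1 : A) + (a k - 1) = a k := by abel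
    rw [e1, hg1, sub_zero, Nat.cast_smul_eq_nsmul, exp_nsmul, hk]
  have h3 : Tendsto (exp : A → A) (𝓝 W) (𝓝 (exp W)) := exp_continuous.tendsto _
  exact (h3.comp h1).congr' h2

end Pow

section Main

variable {A : Type*} [NormedRing A] [NormedAlgebra ℝ A] [ProperSpace A] [StarRing A]
  [ContinuousStar A]

theorem coercive (B : A →L[ℝ] A →L[ℝ] ℝ) (hpos : ∀ x, x ≠ 0 → 0 < B x x) :
    ∃ α : ℝ, 0 < α ∧ ∀ x, α * ‖x‖ ^ 2 ≤ B x x := by
  by_cases hne : ∃ x : A, x ≠ 0
  · obtain ⟨x0, hx0⟩ := hne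
    have hsph : IsCompact (Metric.sphere (0 : A) 1) := isCompact_sphere 0 1
    have hnon : (Metric.sphere (0 : A) 1).Nonempty := by
      refine ⟨‖x0‖⁻¹ • x0, ?_⟩
      rw [mem_sphere_zero_iff_norm, norm_smul, norm_inv, norm_norm]
      exact inv_mul_cancel₀ (norm_ne_zero_iff.mpr hx0)
    have hcont : ContinuousOn (fun x : A => B x x) (Metric.sphere (0 : A) 1) := by
      fun_prop
    obtain ⟨y, hy, hmin⟩ := hsph.exists_isMinOn hnon hcont
    have hy0 : y ≠ 0 := by
      intro h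
      rw [h, mem_sphere_zero_iff_norm, norm_zero] at hy
      exact zero_ne_one hy
    refine ⟨B y y, hpos y hy0, fun x => ?_⟩
    by_cases hx : x = 0
    · simp [hx]
    · have hn : ‖x‖ ≠ 0 := norm_ne_zero_iff.mpr hx
      have h1 : B y y ≤ B (‖x‖⁻¹ • x) (‖x‖⁻¹ • x) := by
        apply hmin
        rw [mem_sphere_zero_iff_norm, norm_smul, norm_inv, norm_norm]
        exact inv_mul_cancel₀ hn
      have h2 : B x x = ‖x‖ ^ 2 * B (‖x‖⁻¹ • x) (‖x‖⁻¹ • x) := by
        rw [map_smul, map_smul, _root_.smul_apply, smul_eq_mul, smul_eq_mul]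
        field_simp
      rw [h2, mul_comm]
      exact mul_le_mul_of_nonneg_left h1 (by positivity)
  · push Not at hne
    exact ⟨1, one_pos, fun x => by simp [hne x]⟩

theorem first_order (B : A →L[ℝ] A →L[ℝ] ℝ) (hsymm : ∀ x y, B x y = B y x)
    (P : ℝ → A) (Q : A) (hP : HasDerivAt P (-Q) 0)
    (hmin : ∀ᶠ s in 𝓝 (0 : ℝ), B (P 0) (P 0) ≤ B (P s) (P s)) : B (P 0) Q = 0 := by
  have h1 : HasDerivAt (fun s => B (P s) (P s)) (B (P 0) (-Q) + B (-Q) (P 0)) 0 :=
    B.hasDerivAt_of_bilinear (fun _ => hP) (fun _ => hP)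
  have h2 : IsLocalMin (fun s => B (P s) (P s)) 0 := hmin
  have h3 := h2.hasDerivAt_eq_zero h1
  rw [hsymm (-Q) (P 0), map_neg] at h3
  linarith

theorem lie_of_curve (L : Submonoid A) (hLc : IsClosed (L : Set A)) (γ : ℝ → A)
    (hγ : ∀ t, 0 ≤ t → γ t ∈ L) (V : A) (hd : HasDerivAt γ V 0) (h0 : γ 0 = 1) :
    ∀ s : ℝ, 0 ≤ s → exp (s • V) ∈ L := by
  intro s hs
  have hlim0 : Tendsto (fun j : ℕ => s / ((j : ℝ) + 1)) atTop (𝓝 0) :=
    tendsto_const_div_atTop_nhds_zero_nat s |>.comp (tendsto_add_atTop_nat 1) |>.congr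
      (fun j => by simp)
  have h1 := (hd.hasFDerivAt.hasFDerivWithinAt (s := Set.univ)).lim
    (c := fun j : ℕ => ((j + 1 : ℕ) : ℝ)) (d := fun j : ℕ => s / ((j : ℝ) + 1)) (l := atTop)
    (v := s) hlim0 (by simp) (by
      refine tendsto_const_nhds.congr (fun j => ?_)
      have : (j : ℝ) + 1 ≠ 0 := by positivity
      rw [smul_eq_mul]; push_cast; field_simp)
  simp only [zero_add, h0] at h1
  have hcont : Tendsto (fun j : ℕ => γ (s / ((j : ℝ) + 1))) atTop (𝓝 1) := by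
    rw [← h0]
    exact (hd.continuousAt.tendsto).comp hlim0
  have h2 := pow_tendsto_exp (fun j : ℕ => γ (s / ((j : ℝ) + 1))) (fun j => j + 1) (s • V) hcont
    (by simpa using h1)
  exact hLc.mem_of_tendsto h2 (Eventually.of_forall fun j => pow_mem (hγ _ (by positivity)) _)

theorem exp_conj_mem (L : Submonoid A) (hLc : IsClosed (L : Set A)) {l : Filter ℕ} [l.NeBot]
    (R R' : ℕ → A) (m : ℕ → ℕ) (W : A) (hR : Tendsto R l (𝓝 1)) (hR' : Tendsto R' l (𝓝 1))
    (hW : Tendsto (fun k => (m k : ℝ) • (R k - 1)) l (𝓝 W))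
    (hW' : Tendsto (fun k => (m k : ℝ) • (R' k - 1)) l (𝓝 (-W)))
    (hmem : ∀ᶠ k in l, ∀ x ∈ L, R k * x * R' k ∈ L) (x : A) (hx : x ∈ L) :
    exp W * x * exp (-W) ∈ L := by
  have h1 := pow_tendsto_exp R m W hR hW
  have h2 := pow_tendsto_exp R' m (-W) hR' hW'
  refine hLc.mem_of_tendsto ((h1.mul_const x).mul h2) ?_
  filter_upwards [hmem] with k hk
  have key : ∀ j : ℕ, R k ^ j * x * R' k ^ j ∈ L := by
    intro j
    induction j with
    | zero => simpa using hx
    | succ j ih =>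
      have e : R k ^ (j + 1) * x * R' k ^ (j + 1) = R k * (R k ^ j * x * R' k ^ j) * R' k := by
        rw [pow_succ' (R k), pow_succ (R' k)]; noncomm_ring
      rw [e]; exact hk _ ih
  exact key _

theorem floor_lim {l : Filter ℕ} (r : ℕ → ℝ) (hr : Tendsto r l (𝓝 0)) (hpos : ∀ᶠ k in l, 0 < r k)
    (t : ℝ) (ht : 0 ≤ t) : Tendsto (fun k => ((⌊t / r k⌋₊ : ℕ) : ℝ) * r k) l (𝓝 t) := by
  have h1 : Tendsto (fun k => t - r k) l (𝓝 t) := by simpa using hr.const_sub t
  refine tendsto_of_tendsto_of_tendsto_of_le_of_le' h1 tendsto_const_nhds ?_ ?_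
  · filter_upwards [hpos] with k hk
    have h2 : t / r k < (⌊t / r k⌋₊ : ℝ) + 1 := Nat.lt_floor_add_one _
    rw [div_lt_iff₀ hk] at h2
    nlinarith
  · filter_upwards [hpos] with k hk
    have h2 : (⌊t / r k⌋₊ : ℝ) ≤ t / r k := Nat.floor_le (by positivity)
    rwa [le_div_iff₀ hk] at h2

end Main

end Pool.Agent.V11186.KO
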