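import Pool.Agent.V11186.KO.Lin

set_option autoImplicit false

namespace Pool.Agent.V11186.KO

open Filter Topology NormedSpace

variable {A : Type*} [NormedRing A] [NormedAlgebra ℝ A] [ProperSpace A] [StarRing A]
  [ContinuousStar A]

theorem main_seq (B : A →L[ℝ] A →L[ℝ] ℝ) (hsymm : ∀ x y, B x y = B y x)
    (hpos : ∀ x, x ≠ 0 → 0 < B x x) (hl : ∀ a x y, B (a * x) y = B x (star a * y))
    (hr : ∀ a x y, B (x * a) y = B x (y * star a))
    (L : Submonoid A) (hLc : IsCompact (L : Set A)) (hstar : ∀ x ∈ L, star x ∈ L)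
    (hun : ∀ x ∈ L, star x * x = 1) (T T' : ℕ → A) (hT : Tendsto T atTop (𝓝 1))
    (hTT' : ∀ k, T k * T' k = 1) (hT'T : ∀ k, T' k * T k = 1)
    (hN : ∀ k, ∀ x ∈ L, T k * x * T' k ∈ L) :
    ∃ k, ∃ n ∈ L, ∀ y ∈ L, (star n * T k) * y = y * (star n * T k) := by
  by_contra hcon
  push Not at hcon
  have hun' : ∀ x ∈ L, x * star x = 1 := fun x hx => by
    have := hun _ (hstar x hx); rwa [star_star] at this
  obtain ⟨M, hM⟩ := hLc.isBounded.exists_norm_le
  have hM1 : ‖(1 : A)‖ ≤ M := hM 1 L.one_mem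
  have hM0 : 0 ≤ M := (norm_nonneg _).trans hM1
  obtain ⟨R, hR⟩ : ∃ R : ℝ, R = M * (‖(1 : A)‖ + 1) + 1 := ⟨_, rfl⟩
  obtain ⟨C, hC⟩ : ∃ C : Set A, C = {c | ∀ y ∈ L, c * y = y * c} := ⟨_, rfl⟩
  have hCm : ∀ c, c ∈ C ↔ ∀ y ∈ L, c * y = y * c := by rw [hC]; exact fun c => Iff.rfl
  have hCc : IsClosed C := by
    have : C = ⋂ y ∈ L, {c : A | c * y = y * c} := by ext; simp [hCm]
    rw [this]
    exact isClosed_biInter fun y _ => isClosed_eq (by fun_prop) (by fun_prop)
  have h1C : (1 : A) ∈ C := (hCm _).2 fun y _ => by simp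
  have hadd : ∀ a ∈ C, ∀ b ∈ C, a + b ∈ C := fun a ha b hb => (hCm _).2 fun y hy => by
    rw [add_mul, mul_add, (hCm _).1 ha y hy, (hCm _).1 hb y hy]
  have hsmul : ∀ (r : ℝ), ∀ a ∈ C, r • a ∈ C := fun r a ha => (hCm _).2 fun y hy => by
    rw [smul_mul_assoc, mul_smul_comm, (hCm _).1 ha y hy]
  have hCmul : ∀ a ∈ C, ∀ b ∈ C, a * b ∈ C := fun a ha b hb => (hCm _).2 fun y hy => by
    rw [mul_assoc, (hCm _).1 hb y hy, ← mul_assoc, (hCm _).1 ha y hy, mul_assoc]
  have hK : IsCompact ((L : Set A) ×ˢ (C ∩ Metric.closedBall 0 R)) :=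
    hLc.prod ((isCompact_closedBall 0 R).inter_left hCc)
  have hK1 : ((1 : A), (1 : A)) ∈ (L : Set A) ×ˢ (C ∩ Metric.closedBall 0 R) := by
    refine ⟨L.one_mem, h1C, ?_⟩
    rw [mem_closedBall_zero_iff, hR]
    nlinarith [norm_nonneg (1 : A)]
  have hex : ∀ k, ∃ p ∈ (L : Set A) ×ˢ (C ∩ Metric.closedBall 0 R),
      IsMinOn (fun p : A × A => B (T k - p.1 * p.2) (T k - p.1 * p.2))
        ((L : Set A) ×ˢ (C ∩ Metric.closedBall 0 R)) p := fun k =>
    hK.exists_isMinOn ⟨_, hK1⟩ (by fun_prop)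
  choose p hpK hpmin using hex
  obtain ⟨n, hn⟩ : ∃ n : ℕ → A, n = fun k => (p k).1 := ⟨_, rfl⟩
  obtain ⟨c, hc⟩ : ∃ c : ℕ → A, c = fun k => (p k).2 := ⟨_, rfl⟩
  have hnL : ∀ k, n k ∈ L := fun k => by rw [hn]; exact (hpK k).1
  have hcC : ∀ k, c k ∈ C := fun k => by rw [hc]; exact (hpK k).2.1
  have hcR : ∀ k, ‖c k‖ ≤ R := fun k => by
    rw [hc]; exact mem_closedBall_zero_iff.1 (hpK k).2.2
  have hmin : ∀ k, ∀ a ∈ L, ∀ b ∈ C, ‖b‖ ≤ R →
      B (T k - n k * c k) (T k - n k * c k) ≤ B (T k - a * b) (T k - a * b) := by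
    intro k a ha b hb hbR
    have := hpmin k (show (a, b) ∈ _ from ⟨ha, hb, mem_closedBall_zero_iff.2 hbR⟩)
    rw [hn, hc]; exact this
  -- D k → 0
  obtain ⟨α, hα, hcoer⟩ := coercive B hpos
  obtain ⟨D, hD⟩ : ∃ D : ℕ → A, D = fun k => T k - n k * c k := ⟨_, rfl⟩
  have hD0 : Tendsto D atTop (𝓝 0) := by
    have h1 : Tendsto (fun k => B (T k - 1) (T k - 1)) atTop (𝓝 0) := by
      have hc1 : Continuous (fun x : A => B (x - 1) (x - 1)) := by fun_prop
      have h2 : Tendsto (fun x : A => B (x - 1) (x - 1)) (𝓝 1) (𝓝 0) := by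
        have := hc1.tendsto 1
        simpa only [sub_self, map_zero] using this
      exact h2.comp hT
    have h2 : Tendsto (fun k => ‖D k‖ ^ 2) atTop (𝓝 0) := by
      have h3 : Tendsto (fun k => α⁻¹ * B (T k - 1) (T k - 1)) atTop (𝓝 0) := by
        simpa using h1.const_mul α⁻¹
      refine squeeze_zero (fun k => by positivity) (fun k => ?_) h3
      have h4 := hcoer (D k)
      have h5 := hmin k 1 L.one_mem 1 h1C (mem_closedBall_zero_iff.1 hK1.2.2)
      rw [mul_one] at h5
      rw [hD] at h4 ⊢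
      simp only at h4 ⊢
      rw [inv_mul_eq_div, le_div_iff₀ hα]
      linarith
    have h3 : Tendsto (fun k => ‖D k‖) atTop (𝓝 0) := by
      have := h2.sqrt
      simpa [Real.sqrt_sq (norm_nonneg _)] using this
    exact tendsto_zero_iff_norm_tendsto_zero.2 h3
  have hnc : Tendsto (fun k => n k * c k) atTop (𝓝 1) := by
    have h1 := hT.sub hD0
    rw [sub_zero] at h1
    refine h1.congr fun k => ?_
    rw [hD]; simp
  have hcid : ∀ k, c k = star (n k) * (n k * c k) := fun k => by
    rw [← mul_assoc, hun _ (hnL k), one_mul]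
  have hclt : ∀ᶠ k in atTop, ‖c k‖ < R := by
    have h1 : ∀ᶠ k in atTop, ‖n k * c k‖ < ‖(1 : A)‖ + 1 :=
      hnc.norm.eventually (gt_mem_nhds (by linarith))
    filter_upwards [h1] with k hk
    calc ‖c k‖ = ‖star (n k) * (n k * c k)‖ := by rw [← hcid]
      _ ≤ ‖star (n k)‖ * ‖n k * c k‖ := norm_mul_le _ _
      _ ≤ M * (‖(1 : A)‖ + 1) :=
        mul_le_mul (hM _ (hstar _ (hnL k))) hk.le (norm_nonneg _) hM0
      _ < R := by rw [hR]; linarith
  -- ultrafilter
  obtain ⟨F, hF⟩ : ∃ F : Ultrafilter ℕ, (F : Filter ℕ) ≤ atTop :=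
    ⟨hyperfilter ℕ, Nat.hyperfilter_le_atTop⟩
  obtain ⟨v, hvL, hv⟩ := hLc.ultrafilter_le_nhds' (F.map n)
    (Filter.univ_mem' (f := (F : Filter ℕ)) hnL)
  replace hv : Tendsto n F (𝓝 v) := hv
  obtain ⟨u, hu⟩ : ∃ u, u = star v := ⟨_, rfl⟩
  have huL : u ∈ L := by rw [hu]; exact hstar _ hvL
  have hcu : Tendsto c F (𝓝 u) := by
    have h1 : Tendsto (fun k => star (n k) * (n k * c k)) F (𝓝 (star v * 1)) :=
      (hv.star).mul (hnc.mono_left hF)
    rw [mul_one, ← hu] at h1
    exact h1.congr fun k => (hcid k).symm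
  have huC : u ∈ C := hCc.mem_of_tendsto hcu (Eventually.of_forall hcC)
  have huu : star u * u = 1 := hun _ huL
  have huu' : u * star u = 1 := hun' _ huL
  let uu : Aˣ := ⟨u, star u, huu', huu⟩
  have hinv : Tendsto (fun k => Ring.inverse (c k)) F (𝓝 (star u)) := by
    have h1 : ContinuousAt Ring.inverse ((uu : Aˣ) : A) := NormedRing.inverse_continuousAt uu
    have h2 := h1.tendsto.comp (show Tendsto c F (𝓝 ((uu : Aˣ) : A)) from hcu)
    rw [Ring.inverse_unit] at h2
    exact h2
  have hcunit : ∀ᶠ k in (F : Filter ℕ), IsUnit (c k) := by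
    have h1 : {x : A | IsUnit x} ∈ 𝓝 u := Units.isOpen.mem_nhds ⟨uu, rfl⟩
    exact hcu.eventually h1
  obtain ⟨c', hc'⟩ : ∃ c' : ℕ → A, c' = fun k => Ring.inverse (c k) := ⟨_, rfl⟩
  rw [← hc'] at hinv
  have hcc' : ∀ᶠ k in (F : Filter ℕ), c k * c' k = 1 := by
    filter_upwards [hcunit] with k hk
    rw [hc']; exact Ring.mul_inverse_cancel _ hk
  have hc'c : ∀ᶠ k in (F : Filter ℕ), c' k * c k = 1 := by
    filter_upwards [hcunit] with k hk
    rw [hc']; exact Ring.inverse_mul_cancel _ hk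
  have hc'C : ∀ᶠ k in (F : Filter ℕ), c' k ∈ C := by
    filter_upwards [hcc', hc'c] with k h1 h2
    refine (hCm _).2 fun y hy => ?_
    calc c' k * y = c' k * y * (c k * c' k) := by rw [h1, mul_one]
      _ = c' k * (y * c k) * c' k := by noncomm_ring
      _ = c' k * (c k * y) * c' k := by rw [(hCm _).1 (hcC k) y hy]
      _ = (c' k * c k) * y * c' k := by noncomm_ring
      _ = y * c' k := by rw [h2, one_mul]
  have hT'1 : Tendsto T' F (𝓝 1) := by
    have h1 : ContinuousAt Ring.inverse (((1 : Aˣ)) : A) := NormedRing.inverse_continuousAt 1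
    have h2 := h1.tendsto.comp (show Tendsto T F (𝓝 ((1 : Aˣ) : A)) from hT.mono_left hF)
    rw [Ring.inverse_unit, inv_one] at h2
    refine h2.congr fun k => ?_
    have : T k = ((⟨T k, T' k, hTT' k, hT'T k⟩ : Aˣ) : A) := rfl
    rw [Function.comp, this, Ring.inverse_unit]; rfl
  -- E, G
  obtain ⟨E, hE⟩ : ∃ E : ℕ → A, E = fun k => star (n k) * T k - c k := ⟨_, rfl⟩
  have hE' : ∀ k, E k = star (n k) * D k := fun k => by
    rw [hE, hD]; simp only; rw [mul_sub, ← mul_assoc, hun _ (hnL k), one_mul]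
  have hE0 : ∀ k, E k ≠ 0 := by
    intro k h0
    have h1 : star (n k) * T k = c k := by rw [hE] at h0; exact sub_eq_zero.1 h0
    obtain ⟨y, hy, hne⟩ := hcon k (n k) (hnL k)
    exact hne (by rw [h1]; exact (hCm _).1 (hcC k) y hy)
  obtain ⟨G, hG⟩ : ∃ G : ℕ → A, G = fun k => E k * c' k := ⟨_, rfl⟩
  have hGc : ∀ᶠ k in (F : Filter ℕ), G k * c k = E k := by
    filter_upwards [hc'c] with k h2
    rw [hG]; simp only; rw [mul_assoc, h2, mul_one]
  have hGne : ∀ᶠ k in (F : Filter ℕ), G k ≠ 0 := by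
    filter_upwards [hGc] with k h2 h0
    rw [h0, zero_mul] at h2
    exact hE0 k h2.symm
  have hEl : Tendsto E F (𝓝 0) := by
    have h1 := (hv.star).mul (hD0.mono_left hF)
    rw [mul_zero] at h1
    exact h1.congr fun k => (hE' k).symm
  have hGl : Tendsto G F (𝓝 0) := by
    have h1 := hEl.mul hinv
    rw [zero_mul] at h1
    rw [hG]; exact h1
  have hGn : Tendsto (fun k => ‖G k‖) F (𝓝 0) := by simpa using hGl.norm
  have hGpos : ∀ᶠ k in (F : Filter ℕ), 0 < ‖G k‖ := by
    filter_upwards [hGne] with k hk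
    exact norm_pos_iff.2 hk
  obtain ⟨Y, hY⟩ : ∃ Y : ℕ → A, Y = fun k => ‖G k‖⁻¹ • G k := ⟨_, rfl⟩
  have hYs : ∀ᶠ k in (F : Filter ℕ), Y k ∈ Metric.sphere (0 : A) 1 := by
    filter_upwards [hGpos] with k hk
    rw [hY, mem_sphere_zero_iff_norm, norm_smul, norm_inv, norm_norm]
    exact inv_mul_cancel₀ hk.ne'
  obtain ⟨X, hXs, hX⟩ := (isCompact_sphere (0 : A) 1).ultrafilter_le_nhds' (F.map Y) hYs
  replace hX : Tendsto Y F (𝓝 X) := hX
  have hXn : ‖X‖ = 1 := mem_sphere_zero_iff_norm.1 hXs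
  -- the normaliser contains exp (t X)
  have hnorm : ∀ t : ℝ, 0 ≤ t → ∀ x ∈ L, exp (t • X) * x * exp (-(t • X)) ∈ L := by
    intro t ht x hx
    have hfl := floor_lim (l := (F : Filter ℕ)) (fun k => ‖G k‖) hGn hGpos t ht
    have hmG : Tendsto (fun k => ((⌊t / ‖G k‖⌋₊ : ℕ) : ℝ) • G k) F (𝓝 (t • X)) := by
      refine (hfl.smul hX).congr' ?_
      filter_upwards [hGpos] with k hk
      rw [hY]; simp only; rw [smul_smul, mul_assoc, mul_inv_cancel₀ hk.ne', mul_one]
    obtain ⟨S, hS⟩ : ∃ S : ℕ → A, S = fun k => star (n k) * T k * c' k := ⟨_, rfl⟩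
    obtain ⟨S', hS'⟩ : ∃ S' : ℕ → A, S' = fun k => c k * T' k * n k := ⟨_, rfl⟩
    have hSG : ∀ᶠ k in (F : Filter ℕ), S k - 1 = G k := by
      filter_upwards [hcc'] with k h1
      rw [hS, hG, hE]; simp only; rw [sub_mul, h1]
    have hSS : ∀ᶠ k in (F : Filter ℕ), S' k * S k = 1 := by
      filter_upwards [hcc'] with k h1
      rw [hS, hS']; simp only
      calc c k * T' k * n k * (star (n k) * T k * c' k)
          = c k * (T' k * ((n k * star (n k)) * T k)) * c' k := by noncomm_ring
        _ = 1 := by rw [hun' _ (hnL k), one_mul, hT'T, mul_one, h1]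
    have hS1 : Tendsto S F (𝓝 1) := by
      have h1 : Tendsto (fun k => 1 + G k) F (𝓝 (1 + 0)) := hGl.const_add 1
      rw [add_zero] at h1
      refine h1.congr' ?_
      filter_upwards [hSG] with k hk
      rw [← hk]; abel
    have hS'1 : Tendsto S' F (𝓝 1) := by
      have h1 := (hcu.mul hT'1).mul hv
      have e : u * 1 * v = 1 := by
        rw [mul_one, hu]; exact hun _ hvL
      rw [e] at h1
      rw [hS']; exact h1
    refine exp_conj_mem L hLc.isClosed S S' (fun k => ⌊t / ‖G k‖⌋₊) (t • X) hS1 hS'1 ?_ ?_ ?_ x hx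
    · refine hmG.congr' ?_
      filter_upwards [hSG] with k hk
      rw [hk]
    · have h1 := (hS'1.mul hmG).neg
      rw [one_mul] at h1
      refine h1.congr' ?_
      filter_upwards [hSG, hSS] with k hk h2
      have e : S' k - 1 = -(S' k * G k) := by
        rw [← hk, mul_sub, h2, mul_one]; abel
      rw [e, mul_smul_comm, smul_neg]
    · filter_upwards [hcc', hc'c, hc'C] with k h1 h2 h3 y hy
      rw [hS, hS']; simp only
      have e : star (n k) * T k * c' k * y * (c k * T' k * n k) =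
          star (n k) * (T k * y * T' k) * n k := by
        calc star (n k) * T k * c' k * y * (c k * T' k * n k)
            = star (n k) * T k * (c' k * y) * (c k * T' k * n k) := by noncomm_ring
          _ = star (n k) * T k * (y * c' k) * (c k * T' k * n k) := by rw [(hCm _).1 h3 y hy]
          _ = star (n k) * T k * y * (c' k * c k) * T' k * n k := by noncomm_ring
          _ = _ := by rw [h2]; noncomm_ring
      rw [e]
      exact L.mul_mem (L.mul_mem (hstar _ (hnL k)) (hN k y hy)) (hnL k)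
  -- the tangent directions
  have htan : ∀ x ∈ L, ∀ s : ℝ, 0 ≤ s → exp (s • (x * X * star x - X)) ∈ L := by
    intro x hx
    have hd : HasDerivAt (fun t : ℝ => x * (exp (t • X) * star x * exp (-(t • X))))
        (x * X * star x - X) 0 := by
      have h1 : HasDerivAt (fun t : ℝ => exp (t • X)) (exp ((0 : ℝ) • X) * X) 0 :=
        hasDerivAt_exp_smul_const X 0
      have h2 : HasDerivAt (fun t : ℝ => exp (t • (-X))) (exp ((0 : ℝ) • (-X)) * (-X)) 0 :=
        hasDerivAt_exp_smul_const (-X) 0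
      simp only [smul_neg, zero_smul, neg_zero, exp_zero, one_mul] at h1 h2
      have h3 := ((h1.mul_const (star x)).mul h2).const_mul x
      simp only [zero_smul, neg_zero, exp_zero, one_mul, mul_one] at h3
      have h4 : HasDerivAt (fun t : ℝ => x * (exp (t • X) * star x * exp (-(t • X))))
        (x * (X * star x + star x * -X)) 0 := h3
      have e5 : x * X * star x - X = x * (X * star x + star x * -X) := by
        rw [mul_add, mul_neg, mul_neg, ← mul_assoc, ← mul_assoc, hun' _ hx, one_mul]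
        abel
      rw [e5]
      exact h4
    refine lie_of_curve L hLc.isClosed _ (fun t ht => L.mul_mem hx (hnorm t ht _ (hstar _ hx))) _ hd ?_
    simp [hun' _ hx]
  -- orthogonality to tangent directions
  have hexpneg : ∀ V : A, ∀ s : ℝ, exp (s • V) ∈ L → exp ((-s) • V) ∈ L := by
    intro V s hs
    letI : NormedAlgebra ℚ A := NormedAlgebra.restrictScalars ℚ ℝ A
    have h1 : exp (s • V) * exp ((-s) • V) = 1 := by
      rw [← exp_add_of_commute ((Commute.refl V).smul_left _ |>.smul_right _), ← add_smul]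
      simp
    have h2 : exp ((-s) • V) = star (exp (s • V)) := by
      calc exp ((-s) • V) = (star (exp (s • V)) * exp (s • V)) * exp ((-s) • V) := by
            rw [hun _ hs, one_mul]
        _ = _ := by rw [mul_assoc, h1, mul_one]
    rw [h2]; exact hstar _ hs
  have horth : ∀ V : A, (∀ s : ℝ, 0 ≤ s → exp (s • V) ∈ L) → B X V = 0 := by
    intro V hV
    have hV' : ∀ s : ℝ, exp (s • V) ∈ L := by
      intro s
      rcases le_total 0 s with h | h
      · exact hV s h
      · have := hexpneg V (-s) (hV (-s) (by linarith))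
        rwa [neg_neg] at this
    have h1 : ∀ k, B (E k) (V * c k) = 0 := by
      intro k
      have hP : HasDerivAt (fun s : ℝ => T k - n k * exp (s • V) * c k) (-(n k * V * c k)) 0 := by
        have h2 : HasDerivAt (fun t : ℝ => exp (t • V)) (exp ((0 : ℝ) • V) * V) 0 :=
          hasDerivAt_exp_smul_const V 0
        rw [zero_smul, exp_zero, one_mul] at h2
        exact ((h2.const_mul (n k)).mul_const (c k)).const_sub (T k)
      have h3 := first_order B hsymm _ _ hP (Eventually.of_forall fun s => by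
        simp only [zero_smul, exp_zero, mul_one]
        exact hmin k _ (L.mul_mem (hnL k) (hV' s)) _ (hcC k) (hcR k))
      simp only [zero_smul, exp_zero, mul_one] at h3
      rw [hsymm, mul_assoc, hl] at h3
      rw [hE', hD, hsymm]
      exact h3
    have h2 : ∀ᶠ k in (F : Filter ℕ), B (Y k * c k) (V * c k) = 0 := by
      filter_upwards [hGc] with k hk
      rw [hY]; simp only
      rw [smul_mul_assoc, hk, map_smul, _root_.smul_apply, h1, smul_zero]
    have h3 : Tendsto (fun k => B (Y k * c k) (V * c k)) F (𝓝 (B (X * u) (V * u))) := by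
      have hc2 : Continuous (fun q : A × A => B (q.1 * q.2) (V * q.2)) := by fun_prop
      exact (hc2.tendsto (X, u)).comp (hX.prodMk_nhds hcu)
    have h4 : B (X * u) (V * u) = 0 :=
      tendsto_nhds_unique (h3.congr' h2) tendsto_const_nhds
    rw [hr, mul_assoc, huu', mul_one] at h4
    exact h4
  have horthC : ∀ b ∈ C, B X b = 0 := by
    intro b0 hb0
    obtain ⟨b, hb⟩ : ∃ b, b = b0 * u := ⟨_, rfl⟩
    have hbC : b ∈ C := by rw [hb]; exact hCmul _ hb0 _ huC
    have h1 : ∀ᶠ k in (F : Filter ℕ), B (E k) b = 0 := by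
      filter_upwards [hF hclt] with k hk
      have hP : HasDerivAt (fun s : ℝ => T k - n k * (c k + s • b)) (-(n k * b)) 0 := by
        have h2 : HasDerivAt (fun t : ℝ => c k + t • b) b 0 := by
          have := ((hasDerivAt_id (0 : ℝ)).smul_const b).const_add (c k)
          simpa using this
        exact (h2.const_mul (n k)).const_sub (T k)
      have hnear : ∀ᶠ s in 𝓝 (0 : ℝ), ‖c k + s • b‖ ≤ R := by
        have hcn : Continuous (fun s : ℝ => ‖c k + s • b‖) := by fun_prop
        have h5 : Tendsto (fun s : ℝ => ‖c k + s • b‖) (𝓝 0) (𝓝 ‖c k + (0 : ℝ) • b‖) :=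
          hcn.tendsto 0
        rw [zero_smul, add_zero] at h5
        filter_upwards [h5.eventually (gt_mem_nhds hk)] with s hs using le_of_lt hs
      have h3 := first_order B hsymm _ _ hP (by
        filter_upwards [hnear] with s hs
        simp only [zero_smul, add_zero]
        exact hmin k _ (hnL k) _ (hadd _ (hcC k) _ (hsmul s _ hbC)) hs)
      simp only [zero_smul, add_zero] at h3
      rw [hsymm, hl] at h3
      rw [hE', hD, hsymm]
      exact h3
    have h2 : ∀ᶠ k in (F : Filter ℕ), B (Y k * c k) b = 0 := by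
      filter_upwards [hGc, h1] with k hk h1
      rw [hY]; simp only
      rw [smul_mul_assoc, hk, map_smul, _root_.smul_apply, h1, smul_zero]
    have h3 : Tendsto (fun k => B (Y k * c k) b) F (𝓝 (B (X * u) b)) := by
      have hc2 : Continuous (fun q : A × A => B (q.1 * q.2) b) := by fun_prop
      exact (hc2.tendsto (X, u)).comp (hX.prodMk_nhds hcu)
    have h4 : B (X * u) b = 0 :=
      tendsto_nhds_unique (h3.congr' h2) tendsto_const_nhds
    rw [hr, hb, mul_assoc, huu', mul_one] at h4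
    exact h4
  -- conclusion
  have hXC : X ∈ C := by
    refine (hCm _).2 fun x hx => ?_
    have hV1 : B X (x * X * star x - X) = 0 := horth _ (htan x hx)
    have hV2 : B (x * X * star x) (x * X * star x - X) = 0 := by
      rw [mul_assoc, hl, hr, star_star, ← mul_assoc]
      have hlie : ∀ s : ℝ, 0 ≤ s → exp (s • (star x * (x * X * star x - X) * x)) ∈ L := by
        intro s hs
        letI : NormedAlgebra ℚ A := NormedAlgebra.restrictScalars ℚ ℝ A
        let ux : Aˣ := ⟨star x, x, hun _ hx, hun' _ hx⟩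
        have e1 : exp (s • (star x * (x * X * star x - X) * x)) =
            star x * exp (s • (x * X * star x - X)) * x := by
          have := exp_units_conj ux (s • (x * X * star x - X))
          have e2 : s • (star x * (x * X * star x - X) * x) =
              ((ux : Aˣ) : A) * (s • (x * X * star x - X)) * ((ux⁻¹ : Aˣ) : A) := by
            change _ = star x * (s • (x * X * star x - X)) * x
            rw [mul_smul_comm, smul_mul_assoc]
          rw [e2, this]; rfl
        rw [e1]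
        exact L.mul_mem (L.mul_mem (hstar _ hx) (htan x hx s hs)) hx
      exact horth _ hlie
    have hV3 : B (x * X * star x - X) (x * X * star x - X) = 0 := by
      have e6 : B (x * X * star x - X) = B (x * X * star x) - B X := map_sub _ _ _
      rw [e6, _root_.sub_apply, hV2, hV1, sub_zero]
    have hV4 : x * X * star x - X = 0 := by
      by_contra h
      exact absurd hV3 (hpos _ h).ne'
    rw [sub_eq_zero] at hV4
    calc X * x = x * X * star x * x := by rw [hV4]
      _ = x * X := by rw [mul_assoc, hun _ hx, mul_one]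
  have hX0 : X ≠ 0 := by
    intro h; rw [h, norm_zero] at hXn; exact zero_ne_one hXn
  exact absurd (horthC X hXC) (hpos X hX0).ne'

end Pool.Agent.V11186.KO
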