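import Pool.Agent.V11186.KO.Lin2

set_option autoImplicit false

namespace Pool.Agent.V11186.KO

open Filter Topology Matrix
open scoped Matrix.Norms.L2Operator ComplexOrder

variable {ι : Type} [Fintype ι] [DecidableEq ι]

/-- The real inner product `Re tr (X Yᴴ)` on complex matrices. -/
noncomputable def B0 : Matrix ι ι ℂ →ₗ[ℝ] Matrix ι ι ℂ →ₗ[ℝ] ℝ :=
  LinearMap.mk₂ ℝ (fun X Y => (Matrix.trace (X * star Y)).re)
    (fun X X' Y => by simp [add_mul])
    (fun c X Y => by simp [smul_mul_assoc])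
    (fun X Y Y' => by simp [mul_add])
    (fun c X Y => by simp)

noncomputable def BB : Matrix ι ι ℂ →L[ℝ] Matrix ι ι ℂ →L[ℝ] ℝ :=
  LinearMap.toContinuousLinearMap
    ((LinearMap.toContinuousLinearMap :
      (Matrix ι ι ℂ →ₗ[ℝ] ℝ) ≃ₗ[ℝ] (Matrix ι ι ℂ →L[ℝ] ℝ)).toLinearMap ∘ₗ B0)

theorem BB_apply (X Y : Matrix ι ι ℂ) : BB X Y = (Matrix.trace (X * star Y)).re := rfl

theorem BB_symm (X Y : Matrix ι ι ℂ) : BB X Y = BB Y X := by
  rw [BB_apply, BB_apply]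
  have h : Y * star X = star (X * star Y) := by rw [star_mul, star_star]
  rw [h, Matrix.star_eq_conjTranspose (X * star Y), Matrix.trace_conjTranspose]
  simp

theorem BB_pos (X : Matrix ι ι ℂ) (hX : X ≠ 0) : 0 < BB X X := by
  rw [BB_apply, Matrix.star_eq_conjTranspose]
  have h1 : 0 ≤ Matrix.trace (X * Xᴴ) := (Matrix.posSemidef_self_mul_conjTranspose X).trace_nonneg
  have h2 : Matrix.trace (X * Xᴴ) ≠ 0 := fun h => hX (Matrix.trace_mul_conjTranspose_self_eq_zero_iff.1 h)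
  have h3 : 0 < Matrix.trace (X * Xᴴ) := lt_of_le_of_ne h1 h2.symm
  exact (Complex.pos_iff.1 h3).1

theorem BB_l (a X Y : Matrix ι ι ℂ) : BB (a * X) Y = BB X (star a * Y) := by
  rw [BB_apply, BB_apply, star_mul, star_star, ← mul_assoc, mul_assoc a X (star Y),
    Matrix.trace_mul_comm a]

theorem BB_r (a X Y : Matrix ι ι ℂ) : BB (X * a) Y = BB X (Y * star a) := by
  rw [BB_apply, BB_apply, star_mul, star_star, mul_assoc]

theorem near_one (L : Submonoid (Matrix ι ι ℂ)) (hLc : IsCompact (L : Set (Matrix ι ι ℂ)))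
    (hstar : ∀ x ∈ L, star x ∈ L) (hun : ∀ x ∈ L, star x * x = 1) :
    ∀ᶠ T in 𝓝 (1 : Matrix ι ι ℂ), ∀ T', T * T' = 1 → T' * T = 1 →
      (∀ x ∈ L, T * x * T' ∈ L) → ∃ n ∈ L, ∀ y ∈ L, (star n * T) * y = y * (star n * T) := by
  by_contra hcon
  rw [Filter.not_eventually] at hcon
  have h1 : ∀ k : ℕ, ∃ T : Matrix ι ι ℂ, T ∈ Metric.ball (1 : Matrix ι ι ℂ) (1 / ((k : ℝ) + 1)) ∧
      ¬ ∀ T', T * T' = 1 → T' * T = 1 →
      (∀ x ∈ L, T * x * T' ∈ L) → ∃ n ∈ L, ∀ y ∈ L, (star n * T) * y = y * (star n * T) := by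
    intro k
    have h2 := hcon.and_eventually (Metric.ball_mem_nhds (1 : Matrix ι ι ℂ)
      (show (0 : ℝ) < 1 / ((k : ℝ) + 1) by positivity))
    obtain ⟨T, hT⟩ := h2.exists
    exact ⟨T, hT.2, hT.1⟩
  choose T hTb hT using h1
  push Not at hT
  choose T' h2 h3 h4 h5 using hT
  have hlim : Tendsto T atTop (𝓝 1) := by
    rw [tendsto_iff_dist_tendsto_zero]
    exact squeeze_zero (fun _ => dist_nonneg) (fun k => le_of_lt (hTb k))
      tendsto_one_div_add_atTop_nhds_zero_nat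
  haveI : ProperSpace (Matrix ι ι ℂ) := FiniteDimensional.proper ℝ _
  obtain ⟨k, n, hn, hk⟩ := main_seq BB BB_symm BB_pos BB_l BB_r L hLc hstar hun T T' hlim
    h2 h3 h4
  obtain ⟨y, hy, hne⟩ := h5 k n hn
  exact hne (hk y hy)

end Pool.Agent.V11186.KO
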