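import Pool.Agent.V11186.KO.Grp

set_option autoImplicit false

namespace Pool.Agent.V11186.KO

open Filter Topology Pointwise Set

universe u

section KK

variable {G : Type u} [Group G] [TopologicalSpace G] [IsTopologicalGroup G]

theorem mem_of_nhds [ConnectedSpace G] (H : Subgroup G) (h : (H : Set G) ∈ 𝓝 (1 : G)) (g : G) :
    g ∈ H := by
  have hopen : IsOpen (H : Set G) := Subgroup.isOpen_of_mem_nhds (g := 1) H h
  have hclosed : IsClosed (H : Set G) := Subgroup.isClosed_of_isOpen H hopen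
  have huniv : (H : Set G) = Set.univ := IsClopen.eq_univ ⟨hclosed, hopen⟩ ⟨1, H.one_mem⟩
  have : g ∈ (H : Set G) := by rw [huniv]; trivial
  exact this

theorem step (K : Set G) (hK : IsCompact K) (U : Set G) (hU : IsCompact U) (hU1 : U ∈ 𝓝 (1 : G)) :
    ∃ V : Set G, (IsCompact V ∧ V ∈ 𝓝 (1 : G)) ∧ V⁻¹ = V ∧ V * V ⊆ U ∧
      ∀ k ∈ K, ∀ v ∈ V, k * v * k⁻¹ ∈ U := by
  have h1 : ∀ᶠ v in 𝓝 (1 : G), ∀ k ∈ K, k * v * k⁻¹ ∈ U := by
    refine hK.eventually_forall_of_forall_eventually (P := fun v k => k * v * k⁻¹ ∈ U) ?_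
    intro k _
    have hc : ContinuousAt (fun z : G × G => z.2 * z.1 * z.2⁻¹) (1, k) := by fun_prop
    have h2 : U ∈ 𝓝 (k * 1 * k⁻¹) := by simpa using hU1
    exact hc h2
  obtain ⟨V, hV1, hVc, hVi, hVV⟩ := exists_closed_nhds_one_inv_eq_mul_subset
    (Filter.inter_mem hU1 h1)
  have hone : (1 : G) ∈ V := mem_of_mem_nhds hV1
  have hVsub : V ⊆ V * V := fun v hv => ⟨v, hv, 1, hone, mul_one v⟩
  refine ⟨V, ⟨hU.of_isClosed_subset hVc fun v hv => (hVV (hVsub hv)).1, hV1⟩, hVi,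
    fun v hv => (hVV hv).1, fun k hk v hv => (hVV (hVsub hv)).2 k hk⟩

theorem exists_compact_normal [T2Space G] [LocallyCompactSpace G] [ConnectedSpace G] :
    ∃ N : Subgroup G, N.Normal ∧ IsCompact (N : Set G) ∧ ∃ D0 : Set G, D0.Countable ∧
      ∀ g : G, ∀ O : Set G, IsOpen O → (∀ m ∈ N, g * m ∈ O) → ∃ d ∈ D0, d ∈ O := by
  obtain ⟨K0, hK0c, hK01⟩ := exists_compact_mem_nhds (1 : G)
  obtain ⟨K, ⟨hKc, hK1⟩, hKi, -, -⟩ := step K0 hK0c K0 hK0c hK01
  choose f hf using fun U : {U : Set G // IsCompact U ∧ U ∈ 𝓝 (1 : G)} =>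
    step K hKc U.1 U.2.1 U.2.2
  let W : ℕ → {U : Set G // IsCompact U ∧ U ∈ 𝓝 (1 : G)} := fun n =>
    Nat.rec ⟨K, hKc, hK1⟩ (fun _ U => ⟨f U, (hf U).1⟩) n
  have hW1 : ∀ n, (W (n + 1)).1 = f (W n) := fun _ => rfl
  have hone : ∀ n, (1 : G) ∈ (W n).1 := fun n => mem_of_mem_nhds (W n).2.2
  have hinv : ∀ n, ((W n).1)⁻¹ = (W n).1 := by
    intro n
    cases n with
    | zero => exact hKi
    | succ n => rw [hW1]; exact (hf (W n)).2.1
  have hmul : ∀ n, (W (n + 1)).1 * (W (n + 1)).1 ⊆ (W n).1 := fun n => (hf (W n)).2.2.1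
  have hdec : ∀ n, (W (n + 1)).1 ⊆ (W n).1 := fun n v hv =>
    hmul n ⟨v, hv, 1, hone (n + 1), mul_one v⟩
  have hconj : ∀ n, ∀ k ∈ K, ∀ v ∈ (W (n + 1)).1, k * v * k⁻¹ ∈ (W n).1 :=
    fun n => (hf (W n)).2.2.2
  let N : Subgroup G :=
    { carrier := ⋂ n, (W n).1
      one_mem' := mem_iInter.2 hone
      mul_mem' := fun {a b} ha hb => mem_iInter.2 fun n =>
        hmul n ⟨a, mem_iInter.1 ha (n + 1), b, mem_iInter.1 hb (n + 1), rfl⟩
      inv_mem' := fun {a} ha => mem_iInter.2 fun n => by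
        rw [← hinv n]
        exact Set.inv_mem_inv.2 (mem_iInter.1 ha n) }
  have hN : ∀ x, x ∈ N ↔ ∀ n, x ∈ (W n).1 := fun x => mem_iInter
  let S : Subgroup G :=
    { carrier := {g | (∀ x ∈ N, g * x * g⁻¹ ∈ N) ∧ (∀ x ∈ N, g⁻¹ * x * g ∈ N)}
      one_mem' := ⟨fun x hx => by simpa using hx, fun x hx => by simpa using hx⟩
      mul_mem' := by
        rintro a b ⟨ha, ha'⟩ ⟨hb, hb'⟩
        refine ⟨fun x hx => ?_, fun x hx => ?_⟩
        · have := ha _ (hb x hx)
          have e : a * b * x * (a * b)⁻¹ = a * (b * x * b⁻¹) * a⁻¹ := by group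
          rw [e]; exact this
        · have := hb' _ (ha' x hx)
          have e : (a * b)⁻¹ * x * (a * b) = b⁻¹ * (a⁻¹ * x * a) * b := by group
          rw [e]; exact this
      inv_mem' := by
        rintro a ⟨ha, ha'⟩
        exact ⟨fun x hx => by rw [inv_inv]; exact ha' x hx,
          fun x hx => by rw [inv_inv]; exact ha x hx⟩ }
  have hKS : K ⊆ (S : Set G) := by
    intro k hk
    refine ⟨fun x hx => (hN _).2 fun n => hconj n k hk x ((hN x).1 hx (n + 1)), fun x hx => ?_⟩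
    refine (hN _).2 fun n => ?_
    have hk' : k⁻¹ ∈ K := by rw [← hKi]; exact Set.inv_mem_inv.2 hk
    have := hconj n k⁻¹ hk' x ((hN x).1 hx (n + 1))
    rwa [inv_inv] at this
  have hNn : N.Normal := ⟨fun x hx g => (mem_of_nhds S (Filter.mem_of_superset hK1 hKS) g).1 x hx⟩
  have hNc : IsCompact (N : Set G) :=
    (W 0).2.1.of_isClosed_subset (isClosed_iInter fun n => (W n).2.1.isClosed)
      (iInter_subset _ 0)
  refine ⟨N, hNn, hNc, ?_⟩
  -- sigma-compactness
  let P : Subgroup G :=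
    { carrier := {g | ∃ n : ℕ, g ∈ K ^ n}
      one_mem' := ⟨0, by simp⟩
      mul_mem' := by
        rintro a b ⟨n, hn⟩ ⟨m, hm⟩
        exact ⟨n + m, by rw [pow_add]; exact Set.mul_mem_mul hn hm⟩
      inv_mem' := by
        rintro a ⟨n, hn⟩
        refine ⟨n, ?_⟩
        have : (K ^ n)⁻¹ = K ^ n := by rw [← inv_pow, hKi]
        rw [← this]; exact Set.inv_mem_inv.2 hn }
  have hPall : ∀ g : G, ∃ n : ℕ, g ∈ K ^ n := fun g =>
    mem_of_nhds P (Filter.mem_of_superset hK1 fun k hk => ⟨1, by rw [pow_one]; exact hk⟩) g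
  have hKn : ∀ n : ℕ, IsCompact (K ^ n) := by
    intro n
    induction n with
    | zero => rw [pow_zero]; exact isCompact_singleton
    | succ n ih => rw [pow_succ]; exact ih.mul hKc
  have hcov : ∀ n j : ℕ, ∃ t : Finset G, K ^ j ⊆ ⋃ x ∈ t, {y | x⁻¹ * y ∈ (W n).1} := by
    intro n j
    obtain ⟨t, -, ht⟩ := (hKn j).elim_nhds_subcover (fun x => {y | x⁻¹ * y ∈ (W n).1})
      (fun x _ => by
        have hc : ContinuousAt (fun y : G => x⁻¹ * y) x := by fun_prop
        have h0 : (W n).1 ∈ 𝓝 (x⁻¹ * x) := by rw [inv_mul_cancel]; exact (W n).2.2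
        exact hc h0)
    exact ⟨t, ht⟩
  choose t ht using hcov
  refine ⟨⋃ n, ⋃ j, (t n j : Set G), countable_iUnion fun n => countable_iUnion fun j =>
    (t n j).countable_toSet, ?_⟩
  intro g O hO hgO
  have hex : ∃ n, ∀ v ∈ (W n).1, g * v ∈ O := by
    by_contra hcon
    push Not at hcon
    have hne : (⋂ n, ((W n).1 ∩ {v | g * v ∉ O})).Nonempty := by
      have hcl : IsClosed {v | g * v ∉ O} := by
        have : {v | g * v ∉ O} = (fun v => g * v) ⁻¹' Oᶜ := rfl
        rw [this]; exact hO.isClosed_compl.preimage (by fun_prop)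
      refine IsCompact.nonempty_iInter_of_sequence_nonempty_isCompact_isClosed _
        (fun i => inter_subset_inter_left _ (hdec i)) ?_ ?_ ?_
      · intro n
        obtain ⟨v, hv, hv'⟩ := hcon n
        exact ⟨v, hv, hv'⟩
      · exact (W 0).2.1.inter_right hcl
      · exact fun i => (W i).2.1.isClosed.inter hcl
    obtain ⟨v, hv⟩ := hne
    rw [mem_iInter] at hv
    exact (hv 0).2 (hgO v ((hN v).2 fun n => (hv n).1))
  obtain ⟨n, hn⟩ := hex
  obtain ⟨j, hj⟩ := hPall g
  have h1 := ht n j hj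
  simp only [mem_iUnion, exists_prop] at h1
  obtain ⟨d, hd, hdg⟩ := h1
  refine ⟨d, mem_iUnion.2 ⟨n, mem_iUnion.2 ⟨j, hd⟩⟩, ?_⟩
  have h2 : g⁻¹ * d ∈ (W n).1 := by
    rw [← hinv n]
    have : g⁻¹ * d = (d⁻¹ * g)⁻¹ := by group
    rw [this]
    exact Set.inv_mem_inv.2 hdg
  have h3 := hn _ h2
  rwa [mul_inv_cancel_left] at h3

theorem countable_closure (D : Set G) (hD : D.Countable) :
    (Subgroup.closure D : Set G).Countable := by
  haveI := hD.to_subtype
  haveI : Countable (FreeGroup D) := by unfold FreeGroup; infer_instance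
  rw [FreeGroup.closure_eq_range, MonoidHom.coe_range]
  exact countable_range _

end KK

section Weight

variable {X : Type u} [TopologicalSpace X]

theorem exists_basis_of_separable [RegularSpace X] (S : Set X) (hS : S.Countable)
    (hd : Dense S) : ∃ B : Set (Set X), TopologicalSpace.IsTopologicalBasis B ∧
      Cardinal.mk B ≤ Cardinal.continuum := by
  refine ⟨range fun A : Set S => interior (closure ((fun s : S => (s : X)) '' A)), ?_, ?_⟩
  · refine TopologicalSpace.isTopologicalBasis_of_isOpen_of_nhds ?_ ?_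
    · rintro _ ⟨A, rfl⟩; exact isOpen_interior
    · intro a U ha hU
      obtain ⟨V, hV, hVc, hVU⟩ := exists_mem_nhds_isClosed_subset (hU.mem_nhds ha)
      refine ⟨_, ⟨{s : S | (s : X) ∈ interior V}, rfl⟩, ?_, ?_⟩
      · have h1 : interior V ⊆ closure (interior V ∩ S) := hd.open_subset_closure_inter isOpen_interior
        have h2 : interior V ∩ S ⊆ (fun s : S => (s : X)) '' {s : S | (s : X) ∈ interior V} :=
          fun x hx => ⟨⟨x, hx.2⟩, hx.1, rfl⟩
        exact interior_maximal (h1.trans (closure_mono h2)) isOpen_interior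
          (mem_interior_iff_mem_nhds.2 hV)
      · refine interior_subset.trans ((closure_minimal ?_ hVc).trans hVU)
        rintro _ ⟨s, hs, rfl⟩
        exact interior_subset hs
  · refine Cardinal.mk_range_le.trans ?_
    rw [Cardinal.mk_set]
    haveI := hS.to_subtype
    calc (2 : Cardinal.{u}) ^ Cardinal.mk S ≤ 2 ^ Cardinal.aleph0 :=
          Cardinal.power_le_power_left two_ne_zero Cardinal.mk_le_aleph0
      _ = Cardinal.continuum := Cardinal.two_power_aleph0

end Weight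

end Pool.Agent.V11186.KO
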